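import Pool.Agent.Lib_helper84.HSG.Defs

/-!
# Hilbert modular forms as functions of lattices. Auxiliary definitions (Part II of HS).
-/

namespace Pool.Agent.HSG

open Complex MeasureTheory Filter Topology UpperHalfPlane NumberField IsDedekindDomain
open scoped nonZeroDivisors MatrixGroups ENNReal

variable {K : Type} [Field K] [NumberField K]

variable (K) in
/-- the degree of `K` -/
noncomputable def dg : ℕ := Module.finrank ℚ K

/-- the vector of the conjugates -/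
def em (x : K) : Em K → ℝ := fun w => w x

/-- translation by a real vector -/
noncomputable def trH {ι : Type} (t : ι → ℝ) (z : ι → ℍ) : ι → ℍ := fun w => t w +ᵥ z w

/-- the vector of the imaginary parts -/
noncomputable def imv {ι : Type} (z : ι → ℍ) : ι → ℝ := fun w => (z w).im

/-- the vector of the real parts -/
noncomputable def rev {ι : Type} (z : ι → ℍ) : ι → ℝ := fun w => (z w).re

/-- the logarithms of the imaginary parts -/
noncomputable def lgy {ι : Type} (z : ι → ℍ) : ι → ℝ := fun w => Real.log (z w).im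

/-- the matrix `[[1, β], [0, 1]]` -/
def nm (β : K) : SL(2, K) := ⟨!![1, β; 0, 1], by simp⟩

variable (K) in
/-- the matrix `[[0, -1], [1, 0]]` -/
def wm : SL(2, K) := ⟨!![0, -1; 1, 0], by simp⟩

/-- the matrix `diag(α, 1)` -/
def dgm (α : Kˣ) : GL (Fin 2) K where
  val := !![(α : K), 0; 0, 1]
  inv := !![((α⁻¹ : Kˣ) : K), 0; 0, 1]
  val_inv := by
    ext i j
    fin_cases i <;> fin_cases j <;> simp
  inv_val := by
    ext i j
    fin_cases i <;> fin_cases j <;> simp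

/-- the matrix `diag(ε, 1/ε)` -/
def dsm (ε : Kˣ) : SL(2, K) := ⟨!![(ε : K), 0; 0, ((ε⁻¹ : Kˣ) : K)], by simp⟩

/-- `β` has exact denominator `c` modulo `x` -/
def ExD (x c : Id K) (β : K) : Prop := ∀ t : K, (t ∈ (1 : Id K).m ∧ t * β ∈ x.m) ↔ t ∈ c.m

/-- representatives modulo `x` of the elements of exact denominator `c` -/
structure IsRep (x c : Id K) (S : Finset K) : Prop where
  ex : ∀ β ∈ S, ExD x c β
  sur : ∀ β, ExD x c β → ∃ β' ∈ S, β - β' ∈ x.m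
  inj : ∀ β ∈ S, ∀ β' ∈ S, β - β' ∈ x.m → β = β'

/-- representatives of `x` modulo the smaller fractional ideal `y` -/
structure IsRepQ (x y : Id K) (S : Finset K) : Prop where
  mem : ∀ β ∈ S, β ∈ x.m
  sur : ∀ β ∈ x.m, ∃ β' ∈ S, β - β' ∈ y.m
  inj : ∀ β ∈ S, ∀ β' ∈ S, β - β' ∈ y.m → β = β'

open scoped Classical in
/-- the number of elements of exact denominator `c` (Euler function) -/
noncomputable def phK (c : Id K) : ℕ :=
  if h : ∃ S : Finset K, IsRep 1 c S then h.choose.card else 0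

/-- a bounded fundamental domain of `ℝ^n` modulo the lattice of the ideal `x` -/
structure IsCell (x : Id K) (C : Set (Em K → ℝ)) : Prop where
  meas : MeasurableSet C
  bdd : ∃ R : ℝ, ∀ t ∈ C, ∀ w, |t w| ≤ R
  ex : ∀ t : Em K → ℝ, ∃ β ∈ x.m, t + em β ∈ C
  uni : ∀ t : Em K → ℝ, ∀ β ∈ x.m, t ∈ C → t + em β ∈ C → β = 0

variable (K) in
/-- unit weights: `ρ` is supported where `|u_w - (∑ u)/n| ≤ R` and is bounded below by `c` where
`|u_w - (∑ u)/n| ≤ R0` -/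
structure UW (R0 : ℝ) where
  ρ : (Em K → ℝ) → ℝ
  R : ℝ
  c : ℝ
  cpos : 0 < c
  meas : Measurable ρ
  nn : ∀ u, 0 ≤ ρ u
  le : ∀ u, ρ u ≤ 1
  supp : ∀ u, ρ u ≠ 0 → ∀ w, |u w - (∑ v, u v) / (dg K : ℝ)| ≤ R
  low : ∀ u, (∀ w, |u w - (∑ v, u v) / (dg K : ℝ)| ≤ R0) → c ≤ ρ u
  sum : ∀ u, HasSum (fun ε : Up K => ρ (u + lg ε.1)) 1

variable (K) in
/-- the chosen lattices `b ⊕ a`, one for each narrow class of `b/a` -/
structure Cusps where
  b : NCl K → Id K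
  a : NCl K → Id K
  cls : ∀ κ, (QuotientGroup.mk (b κ / a κ) : NCl K) = κ
  rr : ∀ κ, ∃ g : Gen K, b κ * a κ = g.out

/-- the lattice of a narrow class -/
noncomputable def Cusps.L (cu : Cusps K) (κ : NCl K) : Lat K := Lat.ds (cu.b κ) (cu.a κ)

/-- the translation lattice `a/b` of a narrow class -/
noncomputable def Cusps.x (cu : Cusps K) (κ : NCl K) : Id K := cu.a κ / cu.b κ

/-- `4 ch_w`-form: `(X² e^{-s} + c² e^s + p² e^t + q² e^{-t} + 2)/4`, `s = u + u'`, `t = u' - u`,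
for the matrix `[[p, X], [c, q]]` -/
noncomputable def chm (m : Matrix (Fin 2) (Fin 2) K) (u u' : Em K → ℝ) (w : Em K) : ℝ :=
  ((w (m 0 1)) ^ 2 * Real.exp (-(u w + u' w)) + (w (m 1 0)) ^ 2 * Real.exp (u w + u' w) +
    (w (m 0 0)) ^ 2 * Real.exp (u' w - u w) + (w (m 1 1)) ^ 2 * Real.exp (u w - u' w) + 2) / 4

/-- the matrix `n(-β) g n(β')` -/
def mm (β : K) (g : SL(2, K)) (β' : K) : Matrix (Fin 2) (Fin 2) K :=
  ((nm (-β) * g * nm β' : SL(2, K)) : Matrix (Fin 2) (Fin 2) K)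

variable (K) in
/-- matrices of determinant 1 with entries in `Q⁻¹ 𝓞` -/
def MQ (Q : ℕ) : Set (Matrix (Fin 2) (Fin 2) K) :=
  {m | m.det = 1 ∧ ∀ i j, ((Q : K) * m i j) ∈ (1 : Id K).m}

/-- monomial matrices -/
def Mono (m : Matrix (Fin 2) (Fin 2) K) : Prop :=
  (m 0 1 = 0 ∧ m 1 0 = 0) ∨ (m 0 0 = 0 ∧ m 1 1 = 0)

variable (K) in
/-- the box `|u_w| ≤ V` -/
def box (V : ℝ) : Set (Em K → ℝ) := {u | ∀ w, |u w| ≤ V}

/-- a finite family of vertical geodesics: lattice class, abscissa and exact denominator -/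
structure GFam (cu : Cusps K) (J : Type) where
  κ : J → NCl K
  β : J → K
  c : J → Id K
  cint : ∀ j, IsInt (c j)
  den : ∀ j, ExD (cu.x (κ j)) (c j) (β j)
  inj : ∀ j j', κ j = κ j' → β j - β j' ∈ (cu.x (κ j)).m → j = j'

/-- `E_z(z') = ∏_w e_{z_w}(z'_w) y'_w^{k/2}` -/
noncomputable def EW {ι : Type} [Fintype ι] (k : ℕ) (z z' : ι → ℍ) : ℂ :=
  ∏ w, WA.phf k (WA.ez k (z w)) (z' w)

/-- `f(z) ∏_w y_w^{k/2}` -/
noncomputable def phW {ι : Type} [Fintype ι] (k : ℕ) (f : (ι → ℂ) → ℂ) (z : ι → ℍ) : ℂ :=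
  f (fun w => (z w : ℂ)) * ∏ w, (((z w).im ^ ((k : ℝ) / 2) : ℝ) : ℂ)

/-- the product of the upper half planes as a subset of `ℂ^n` -/
def UH (ι : Type) : Set (ι → ℂ) := {z | ∀ w, 0 < (z w).im}

/-- `P(∏ T_w > x)` for independent Gamma(k-1) variables `T_w`, in the form
`∫ ∏ t_w^{k-2} e^{-t_w} dt / Γ(k-1)^n` over `t_w > 0`, `∏ t_w > x` -/
noncomputable def PT (ι : Type) [Fintype ι] (k : ℕ) (x : ℝ) : ℝ≥0∞ :=
  (∫⁻ t in {t : ι → ℝ | (∀ w, 0 < t w) ∧ x < ∏ w, t w},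
    ENNReal.ofReal (∏ w, (t w) ^ (k - 2) * Real.exp (-(t w)))) /
    ENNReal.ofReal (Real.Gamma ((k : ℝ) - 1) ^ Fintype.card ι)

open scoped Classical in
/-- `κ(z', L) = ∑_{L_j = L} ∫ conj Ψ_j(u) E_{z_j(u)}(z') du` -/
noncomputable def kapX {J : Type} [Fintype J] (k : ℕ) (β : J → K) (L : J → Lat K)
    (Ψ : J → (Em K → ℝ) → ℂ) (x : XX K) : ℂ :=
  ∑ j, if x.2 = L j then ∫ u : Em K → ℝ, starRingEnd ℂ (Ψ j u) * EW k (zb (β j) u) x.1 else 0

/-- the interior matrices: all `x_w = p_w q_w` lie in `(0,1)` and all entries are `≤ 4 e^V` -/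
def Inr (m : Matrix (Fin 2) (Fin 2) K) (V : ℝ) : Prop :=
  (∀ w : Em K, 0 < w (m 0 0 * m 1 1) ∧ w (m 0 0 * m 1 1) < 1) ∧
    ∀ i j, ∀ w : Em K, |w (m i j)| ≤ 4 * Real.exp V

open scoped Classical in
/-- the weight `χ_η` -/
noncomputable def chi (cu : Cusps K) {R0 : ℝ} (ρ : UW K R0) (C : Id K → Set (Em K → ℝ)) (η : ℝ)
    (x : XX K) : ℝ≥0∞ :=
  ∑' κ : NCl K, if x.2 = cu.L κ ∧ η < NY x.1 * nI (cu.b κ / cu.a κ) ∧ rev x.1 ∈ C (cu.x κ) then
    ENNReal.ofReal (ρ.ρ (lgy x.1)) else 0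

end Pool.Agent.HSG
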