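import Pool.Agent.Lib_helper84.HSG.Forms
import Pool.Agent.Lib_helper45.HS.DefsK

/-!
# Hilbert modular forms as functions of lattices: definitions for the proof
-/

namespace Pool.Agent.HSG

open Complex MeasureTheory Filter Topology UpperHalfPlane NumberField IsDedekindDomain
open scoped nonZeroDivisors MatrixGroups ENNReal

variable {K : Type} [Field K] [NumberField K]

/-! ### Determinants, norms and heights -/

/-- the submodule of `K` generated by the determinants of the pairs of elements of `L` -/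
def Lat.dM (L : Lat K) : Submodule (𝓞 K) K :=
  Submodule.span (𝓞 K) {x | ∃ u ∈ L.M, ∃ v ∈ L.M, x = dt u v}

open scoped Classical in
/-- the fractional ideal with a given underlying submodule -/
noncomputable def toId (M : Submodule (𝓞 K) K) : Id K :=
  if h : ∃ a : Id K, a.m = M then h.choose else 1

/-- the determinant of a lattice -/
noncomputable def Lat.det (L : Lat K) : Id K := toId L.dM

/-- `{x ∈ K : x v ∈ L}` -/
def Lat.aM (L : Lat K) (v : Fin 2 → K) : Submodule (𝓞 K) K :=
  L.M.comap ((LinearMap.toSpanSingleton K (Fin 2 → K) v).restrictScalars (𝓞 K))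

/-- the fractional ideal `{x ∈ K : x v ∈ L}` -/
noncomputable def Lat.av (L : Lat K) (v : Fin 2 → K) : Id K := toId (L.aM v)

/-- the height `N(y) N(L) / (N(v(z))² N(a_v)²)` -/
noncomputable def ht (v : Fin 2 → K) (z : Em K → ℍ) (L : Lat K) : ℝ :=
  NY z * nI L.det / ((∏ w, ‖lz v z w‖) ^ 2 * nI (L.av v) ^ 2)

/-- `F(z, L) (N(y) N(L))^{k/2}` -/
noncomputable def PF (k : ℕ) (F : (Em K → ℍ) → Lat K → ℂ) (z : Em K → ℍ) (L : Lat K) : ℂ :=
  F z L * (((NY z * nI L.det) ^ ((k : ℝ) / 2) : ℝ) : ℂ)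

/-! ### Totally positive elements, classes, units -/

variable (K) in
/-- the totally positive elements -/
def Kp : Subgroup Kˣ where
  carrier := {x | ∀ w : Em K, 0 < w (x : K)}
  mul_mem' := fun h1 h2 w => by
    rw [Units.val_mul, map_mul]
    exact mul_pos (h1 w) (h2 w)
  one_mem' := fun w => by simp
  inv_mem' := fun h w => by
    rw [Units.val_inv_eq_inv_val, map_inv₀]
    exact inv_pos.mpr (h w)

/-- the principal ideal of a nonzero element -/
noncomputable def prI : Kˣ →* Id K := toPrincipalIdeal (𝓞 K) K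

variable (K) in
/-- all units of the ring of integers (as elements of `K`) -/
noncomputable def Uu : Subgroup Kˣ := (prI (K := K)).ker

variable (K) in
/-- the totally positive units -/
noncomputable def Up : Subgroup Kˣ := Kp K ⊓ Uu K

variable (K) in
/-- the ideals generated by totally positive elements -/
noncomputable def Pp : Subgroup (Id K) := (Kp K).map prI

variable (K) in
/-- products of squares of ideals and ideals generated by totally positive elements -/
noncomputable def Sq : Subgroup (Id K) := Pp K ⊔ (powMonoidHom 2 : Id K →* Id K).range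

variable (K) in
/-- the narrow class group -/
abbrev NCl := Id K ⧸ Pp K

variable (K) in
/-- the genus group -/
abbrev Gen := Id K ⧸ Sq K

/-- the logarithms of the absolute values -/
noncomputable def lg (x : Kˣ) (w : Em K) : ℝ := Real.log |w (x : K)|

variable (K) in
/-- the different -/
noncomputable def DD : Id K :=
  toId ((differentIdeal ℤ (𝓞 K) : FractionalIdeal (𝓞 K)⁰ K) : Submodule (𝓞 K) K)

variable (K) in
/-- the absolute value of the discriminant -/
noncomputable def dK : ℝ := |(discr K : ℝ)|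

/-! ### Fourier coefficients -/

/-- `exp(2 π i Tr(ν z))` -/
noncomputable def eT (ν : K) (z : Em K → ℍ) : ℂ :=
  cexp (2 * Real.pi * Complex.I * ∑ w : Em K, ((w ν : ℝ) : ℂ) * (z w : ℂ))

/-- `A` are the Fourier coefficients of `F` -/
structure IsCo (k : ℕ) (F : (Em K → ℍ) → Lat K → ℂ) (A : Id K → ℂ) : Prop where
  int : ∀ m, ¬ IsInt m → A m = 0
  growth : ∃ C : ℝ, ∀ m, ‖A m‖ ≤ C * nI m ^ ((k : ℝ) / 2)
  exp : ∀ (b : Id K) (z : Em K → ℍ),
    HasSum (fun ν : Kp K => A (prI ν.1 * DD K * b⁻¹) * eT ((ν.1 : Kˣ) : K) z) (F z (Lat.ds b 1))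

/-! ### Integration -/

variable (K) in
/-- the space of points and lattices -/
abbrev XX := (Em K → ℍ) × Lat K

variable (K) in
/-- the invariant measure -/
noncomputable def mu0 : Measure (XX K) := (volume : Measure (Em K → ℍ)).prod Measure.count

variable (K) in
/-- exact weights -/
structure ExW where
  w : XX K → ℝ
  meas : Measurable w
  nn : ∀ x, 0 ≤ w x
  ex : ∀ x, HasSum (fun g : SL(2, K) => w (g • x)) 1
  fin : ∀ r : Id K, ∫⁻ x in {x | x.2.det = r}, ENNReal.ofReal (w x) ∂(mu0 K) < ∞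

/-- the finite measure on the lattices of determinant `r` -/
noncomputable def mr (ω : ExW K) (r : Id K) : Measure (XX K) :=
  ((mu0 K).restrict {x | x.2.det = r}).withDensity (fun x => ENNReal.ofReal (ω.w x))

/-- the finite measure on the space of forms -/
noncomputable def mX (ω : ExW K) : Measure (XX K) :=
  Measure.sum (fun κ : Gen K => mr ω κ.out)

/-- the square of the Petersson norm -/
noncomputable def pn (ω : ExW K) (k : ℕ) (F : (Em K → ℍ) → Lat K → ℂ) : ℝ :=
  ∫ x, ‖PF k F x.1 x.2‖ ^ 2 ∂(mX ω)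

/-- the Petersson product -/
noncomputable def pet (ω : ExW K) (k : ℕ) (F F' : (Em K → ℍ) → Lat K → ℂ) : ℂ :=
  ∫ x, PF k F x.1 x.2 * starRingEnd ℂ (PF k F' x.1 x.2) ∂(mX ω)

/-! ### Geodesics and the kernel sum -/

/-- `∏_w cosh²(d(z_w, z'_w)/2)` -/
noncomputable def chW (z z' : Em K → ℍ) : ℝ := ∏ w, WA.ch (z w) (z' w)

/-- the point `β + i e^u` -/
noncomputable def zb (β : K) (u : Em K → ℝ) : Em K → ℍ := fun w => WA.vz (w β) (u w)

/-- bounded measurable weights supported in the box `|u_w| ≤ V` -/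
structure PsB {J : Type} (Ψ : J → (Em K → ℝ) → ℂ) (M V : ℝ) : Prop where
  meas : ∀ j, Measurable (Ψ j)
  bdd : ∀ j u, ‖Ψ j u‖ ≤ M
  supp : ∀ j u, Ψ j u ≠ 0 → ∀ w, |u w| ≤ V

/-- the functional `∑_j ∫ Ψ_j(u) P_F(β_j + i e^u, L_j) du` -/
noncomputable def Lf {J : Type} [Fintype J] (k : ℕ) (β : J → K) (L : J → Lat K)
    (Ψ : J → (Em K → ℝ) → ℂ) (F : (Em K → ℍ) → Lat K → ℂ) : ℂ :=
  ∑ j, ∫ u, Ψ j u * PF k F (zb (β j) u) (L j)

/-- the kernel sum -/
noncomputable def KS {J : Type} [Fintype J] (k : ℕ) (β : J → K) (L : J → Lat K)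
    (Ψ : J → (Em K → ℝ) → ℂ) : ℝ≥0∞ :=
  ∑ j, ∑ j', ∫⁻ u, ∫⁻ u', ‖Ψ j u‖ₑ * ‖Ψ j' u'‖ₑ *
    ∑' g : {g : SL(2, K) // g • L j' = L j},
      ENNReal.ofReal (chW (g.1 • zb (β j') u') (zb (β j) u) ^ (-(k : ℝ) / 2))

end Pool.Agent.HSG
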